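import Pool.Agent.H36.CY.Df
import Pool.Agent.H73.P2.Cm
import Pool.Agent.H10.StarGal

/-!
Transport of the local conditions (project MP_78d38b_CY, no row).
-/

set_option autoImplicit false
set_option linter.unusedSectionVars false
open scoped Classical

open WithZero NumberField IsDedekindDomain H38RT
open H38T1 (SC sc scu rep eo la si Pri OddP tp unif)
open H76PP H73P2 H36CY

namespace H73CY

/-- The local condition along a ring homomorphism. -/
theorem LC_map {k F F' : Type} [Field k] [Field F] [Field F'] {i : k →+* F} {j : k →+* F'}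
    (φ : F →+* F') (hφ : ∀ x : k, φ (i x) = j x) {a b : k} {d : Fin 3 → k} (h : LC i a b d) :
    LC j a b d := by
  obtain ⟨x, y, z, hy, hxy, hm⟩ := h
  refine ⟨φ x, φ y, fun i => φ (z i), ?_, ?_, ?_⟩
  · rw [Ne, map_eq_zero]
    exact hy
  · rw [← hφ a, ← hφ b, ← map_pow, hxy, map_add, map_add, map_mul, map_pow]
  · have e1 : (fun i => φ ((![x, -1, 0] : Fin 3 → F) i)) = ![φ x, -1, 0] := by
      funext i
      fin_cases i <;> simp
    have e2 : (fun l => j (d l)) = fun l => φ (i (d l)) := by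
      funext l
      rw [hφ]
    funext l
    have h1 := Te_m3_map φ (i a) (i b) (fun l => i (d l)) ![x, -1, 0] l
    have h2 := Te_m3_map φ (i a) (i b) z z l
    rw [e1, hφ, hφ] at h1
    rw [hφ, hφ] at h2
    rw [e2, h1, h2, hm]

/-- The completions at conjugate places. -/
theorem conj_map {k k' : Type} [Field k] [NumberField k] [Field k'] [NumberField k'] [Algebra k k']
    (τ : k' ≃ₐ[k] k') (u : HeightOneSpectrum (𝓞 k')) :
    ∃ u' : HeightOneSpectrum (𝓞 k'), (∀ x : k', u.valuation k' (τ x) = u'.valuation k' x) ∧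
      ∃ φ : u'.adicCompletion k' →+* u.adicCompletion k', ∀ x : k',
        φ (algebraMap k' (u'.adicCompletion k') x) = algebraMap k' (u.adicCompletion k') (τ x) := by
  obtain ⟨u', h1, -⟩ := Pool.Agent.H10.exists_conj τ u
  have hsm : ∀ U ∈ nhds (0 : u.adicCompletion k'), ∃ n : ℕ, ∀ x : k',
      u'.valuation k' x ≤ exp (-(n : ℤ)) →
        ((algebraMap k' (u.adicCompletion k')).comp (τ : k' →+* k')) x ∈ U := by
    intro U hU
    rw [Valued.mem_nhds_zero] at hU
    obtain ⟨γ, hγ⟩ := hU
    obtain ⟨n, hn⟩ := exists_exp_neg_natCast_lt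
      (x := MonoidWithZeroHom.ValueGroup₀.embedding γ.1) (by simp)
    refine ⟨n, fun x hx => hγ ?_⟩
    change Valued.v.restrict _ < γ.1
    rw [Valuation.restrict_lt_iff_lt_embedding]
    refine lt_of_le_of_lt ?_ hn
    have h2 := u.valuedAdicCompletion_eq_valuation' (K := k') (τ x)
    change Valued.v (algebraMap k' (u.adicCompletion k') (τ x)) = _ at h2
    change Valued.v (algebraMap k' (u.adicCompletion k') (τ x)) ≤ _
    rw [h2, h1]
    exact hx
  exact ⟨u', h1, Pool.Agent.H10.adicLift u' _ (Pool.Agent.H10.continuous_fromVal u' _ hsm),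
    fun x => Pool.Agent.H10.adicLift_algebraMap u' _ _ x⟩

/-- The local conditions above two for the conjugate. -/
theorem two_conj {k k' : Type} [Field k] [NumberField k] [Field k'] [NumberField k'] [Algebra k k']
    (τ : k' ≃ₐ[k] k') {a b : k} {d : Fin 3 → k'}
    (h : ∀ u : HeightOneSpectrum (𝓞 k'), u.valuation k' 2 < 1 →
      LC (algebraMap k' (u.adicCompletion k')) (algebraMap k k' a) (algebraMap k k' b) d)
    (u : HeightOneSpectrum (𝓞 k')) (hu : u.valuation k' 2 < 1) :
    LC (algebraMap k' (u.adicCompletion k')) (algebraMap k k' a) (algebraMap k k' b)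
      (fun i => τ (d i)) := by
  obtain ⟨u', h1, φ, hφ⟩ := conj_map τ u
  have h2 : u'.valuation k' 2 < 1 := by
    rw [← h1, map_ofNat]
    exact hu
  have h3 := LC_map (j := (algebraMap k' (u.adicCompletion k')).comp (τ : k' →+* k')) φ
    (fun x => hφ x) (h u' h2)
  unfold LC at h3 ⊢
  simp only [RingHom.comp_apply, RingHom.coe_coe, τ.commutes] at h3
  exact h3

/-- As `H73P2.exists_map`, with the place above two. -/
theorem exists_map2 {K M : Type} [Field K] [NumberField K] [Field M] [NumberField M] [Algebra K M]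
    (v : HeightOneSpectrum (𝓞 K)) (j : M →+* v.adicCompletion K)
    (hj : ∀ x : K, j (algebraMap K M x) = algebraMap K (v.adicCompletion K) x)
    (hv : v.valuation K 2 < 1) :
    ∃ (u : HeightOneSpectrum (𝓞 M)) (φ : u.adicCompletion M →+* v.adicCompletion K),
      u.valuation M 2 < 1 ∧ ∀ x : M, φ (algebraMap M (u.adicCompletion M) x) = j x := by
  refine ⟨Cm_pl v j hj, Pool.Agent.H10.adicLift (Cm_pl v j hj) j
    (Pool.Agent.H10.continuous_fromVal (Cm_pl v j hj) j (Cm_nhds v j hj)), ?_,
    fun x => Pool.Agent.H10.adicLift_algebraMap (Cm_pl v j hj) _ _ x⟩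
  have h2 : (2 : 𝓞 M) ∈ (Cm_pl v j hj).asIdeal := by
    change (2 : 𝓞 M) ∈ Cm_id v j hj
    rw [Cm_mem]
    have e1 : algebraMap (𝓞 M) M 2 = 2 := map_ofNat (algebraMap (𝓞 M) M) 2
    have e2 : (2 : M) = algebraMap K M 2 := (map_ofNat (algebraMap K M) 2).symm
    rw [e1, e2, Cm_val v j hj]
    exact hv
  have h3 := ((Cm_pl v j hj).valuation_lt_one_iff_mem (K := M) (r := (2 : 𝓞 M))).2 h2
  have e1 : algebraMap (𝓞 M) M 2 = 2 := map_ofNat (algebraMap (𝓞 M) M) 2
  rw [← e1]
  exact h3

end H73CY
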