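import Pool.Agent.H73.CY.Qc
import Pool.Agent.H73.P2.Ch
import Pool.Agent.H73.P2.Ev
import Pool.Agent.H24.PD.Main

/-!
The relative theorem with the conditions at all places above two (project MP_78d38b_CY, no row; modification of
`Pool/Agent/H73/P2/Bs.lean`, `Ch.lean`, `Rl.lean`).
-/

set_option autoImplicit false
set_option linter.unusedSectionVars false
open scoped Classical

open WithZero NumberField IsDedekindDomain H38RT
open H38T1 (SC sc scu rep eo la si Pri OddP tp unif)
open H76PP H73P2 H36CY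

namespace H73CY

section Base

variable {K k : Type} [Field K] [NumberField K] [Field k] [NumberField k] [Algebra K k]

theorem bs_surj (h1 : Module.finrank K k = 1) : Function.Surjective (algebraMap K k) := by
  rw [Algebra.surjective_algebraMap_iff]
  exact (Subalgebra.bot_eq_top_iff_finrank_eq_one.2 h1).symm

theorem bs_LC {F : Type} [Field F] {a b : K} {d : Fin 3 → K} (j : K →+* F) (j' : k →+* F)
    (hj : ∀ x : K, j' (algebraMap K k x) = j x)
    (h : LC j' (algebraMap K k a) (algebraMap K k b) (fun i => algebraMap K k (d i))) :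
    LC j a b d := by
  obtain ⟨x, y, z, hy, h1, h2⟩ := h
  simp only [hj] at h1 h2
  exact ⟨x, y, z, hy, h1, h2⟩

theorem relC_base (h1 : Module.finrank K k = 1) {S : Finset (HeightOneSpectrum (𝓞 K))} {a b : K}
    (hT : ∀ (L : Type) [Field L] [NumberField L] [Algebra K L] (θ : L), Cub K L a b θ →
      RelCT K K L S a b θ)
    (L : Type) [Field L] [NumberField L] [Algebra k L] (θ : L)
    (h : Cub k L (algebraMap K k a) (algebraMap K k b) θ) : RelCT K k L S a b θ := by
  have hs := bs_surj h1
  have hi : Function.Injective (algebraMap K k) := (algebraMap K k).injective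
  letI : Algebra K L := ((algebraMap k L).comp (algebraMap K k)).toAlgebra
  have hal : ∀ x : K, algebraMap K L x = algebraMap k L (algebraMap K k x) := fun _ => rfl
  have hcub : Cub K L a b θ := by
    refine ⟨?_, ?_, ?_⟩
    · rw [hal, hal]
      exact h.root
    · intro c₀ c₁ c₂ hc
      rw [hal, hal, hal] at hc
      obtain ⟨e0, e1, e2⟩ := h.li _ _ _ hc
      exact ⟨(map_eq_zero _).1 e0, (map_eq_zero _).1 e1, (map_eq_zero _).1 e2⟩
    · intro x
      obtain ⟨c₀, c₁, c₂, hx⟩ := h.sp x
      obtain ⟨d₀, rfl⟩ := hs c₀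
      obtain ⟨d₁, rfl⟩ := hs c₁
      obtain ⟨d₂, rfl⟩ := hs c₂
      exact ⟨d₀, d₁, d₂, hx⟩
  intro d hR
  choose d₀ hd₀ using fun i => hs (d i)
  obtain rfl : d = fun i => algebraMap K k (d₀ i) := funext fun i => (hd₀ i).symm
  have hev : ev θ d₀ = ev θ (fun i => algebraMap K k (d₀ i)) := rfl
  let e : K ≃+* k := RingEquiv.ofBijective (algebraMap K k) ⟨hi, hs⟩
  have hRel : RelC K K L S a b θ d₀ := by
    refine ⟨?_, ?_, ?_, ?_, ?_, ?_⟩
    · rw [hev]
      exact hR.ne
    · rw [Te_norm hcub]
      have h2 := hR.sq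
      rw [Te_norm h, Te_nf_map] at h2
      obtain ⟨r, hr⟩ := h2
      obtain ⟨r₀, rfl⟩ := hs r
      refine ⟨r₀, hi ?_⟩
      rw [hr, map_mul]
    · intro w hw hw2
      rw [hev]
      refine hR.even w ?_ hw2
      have h3 : dn K (dn K w) = dn K (dn k w) := by
        apply HeightOneSpectrum.ext
        ext x
        have h4 : algebraMap (𝓞 K) (𝓞 L) (algebraMap (𝓞 K) (𝓞 K) x) =
            algebraMap (𝓞 k) (𝓞 L) (algebraMap (𝓞 K) (𝓞 k) x) := by
          apply RingOfIntegers.coe_injective
          rfl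
        change algebraMap (𝓞 K) (𝓞 L) (algebraMap (𝓞 K) (𝓞 K) x) ∈ w.asIdeal ↔
          algebraMap (𝓞 k) (𝓞 L) (algebraMap (𝓞 K) (𝓞 k) x) ∈ w.asIdeal
        rw [h4]
      rw [← h3]
      exact hw
    · intro v hv j hj
      let j' : k →+* v.adicCompletion K := j.comp (e.symm : k →+* K)
      have hj' : ∀ x : K, j' (algebraMap K k x) = j x := by
        intro x
        change j (e.symm (e x)) = j x
        rw [RingEquiv.symm_apply_apply]
      refine bs_LC (k := k) j j' hj' ?_
      apply hR.loc v hv j'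
      intro x
      rw [hj']
      exact hj x
    · intro v hv
      let j' : k →+* v.adicCompletion K :=
        (algebraMap K (v.adicCompletion K)).comp (e.symm : k →+* K)
      have hj' : ∀ x : K, j' (algebraMap K k x) = algebraMap K (v.adicCompletion K) x := by
        intro x
        change algebraMap K (v.adicCompletion K) (e.symm (e x)) = algebraMap K (v.adicCompletion K) x
        rw [RingEquiv.symm_apply_apply]
      obtain ⟨u, φ, hu, hφ⟩ := exists_map2 v j' hj' hv
      exact bs_LC (k := k) _ j' hj' (LC_map φ hφ (hR.two u hu))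
    · intro s
      let s' : k →+* ℝ := s.comp (e.symm : k →+* K)
      have hs' : ∀ x : K, s' (algebraMap K k x) = s x := by
        intro x
        change s (e.symm (e x)) = s x
        rw [RingEquiv.symm_apply_apply]
      exact bs_LC (k := k) s s' hs' (hR.real s')
  have h5 := hT L θ hcub d₀ hRel
  rw [hev] at h5
  exact h5

end Base

theorem chainC {K N : Type} [Field K] [NumberField K] [Field N] [NumberField N] [Algebra K N]
    [IsGalois K N] {r : ℕ} (hr : Module.finrank K N = 2 ^ r) {S : Finset (HeightOneSpectrum (𝓞 K))}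
    {a b : K}
    (hd : 4 * a ^ 3 + 27 * b ^ 2 ≠ 0)
    (hsplit : ∀ v ∈ S, ∃ ι : N →+* v.adicCompletion K, ∀ x : K,
      ι (algebraMap K N x) = algebraMap K (v.adicCompletion K) x)
    (hreal : ∀ s : K →+* ℝ, 0 < s (4 * a ^ 3 + 27 * b ^ 2) ∨ ∃ s' : N →+* ℝ, ∀ x : K,
      s' (algebraMap K N x) = s x)
    (hram : ∀ V : HeightOneSpectrum (𝓞 N), dn K V ∉ S → V.valuation N 2 = 1 → Ram K V →
      NoRootAt (dn K V) a b)
    (hdesc : Desc2 K N a b)
    (hT : ∀ (L : Type) [Field L] [NumberField L] [Algebra K L] (θ : L), Cub K L a b θ →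
      RelCT K K L S a b θ) (n : ℕ) :
    ∀ (k : Type) [Field k] [NumberField k] [Algebra K k] [Algebra k N] [IsScalarTower K k N],
      Module.finrank K k = n →
      (∀ u : HeightOneSpectrum (𝓞 k), NoRootAt (dn K u) a b →
        NoRootAt u (algebraMap K k a) (algebraMap K k b)) ∧
      ∀ (L : Type) [Field L] [NumberField L] [Algebra k L] (θ : L),
        Cub k L (algebraMap K k a) (algebraMap K k b) θ → RelCT K k L S a b θ := by
  have _ : FiniteDimensional K N := Module.Finite.of_restrictScalars_finite ℚ K N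
  induction n using Nat.strong_induction_on with
  | _ n ih =>
    intro k _ _ _ _ _ hn
    by_cases h1 : Module.finrank K k = 1
    · exact ⟨fun u hu => nr_base h1 u hu, fun L _ _ _ θ h => relC_base h1 hT L θ h⟩
    · obtain ⟨k₀, hk₀⟩ := exists_half (K := K) (N := N) (k' := k) hr h1
      have _ : FiniteDimensional K k := Module.Finite.of_restrictScalars_finite ℚ K k
      have _ : NumberField k₀ := NumberField.of_module_finite K k₀
      have _ : IsScalarTower k₀ k N := inferInstance
      have _ : IsScalarTower K k₀ N := IsScalarTower.of_algebraMap_eq fun x => by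
        rw [IsScalarTower.algebraMap_apply K k N, IsScalarTower.algebraMap_apply K k₀ k]
        rfl
      have hmul := Module.finrank_mul_finrank K k₀ k
      rw [hk₀] at hmul
      have hpos : 0 < Module.finrank K k₀ := Module.finrank_pos
      obtain ⟨ih1, ih2⟩ := ih (Module.finrank K k₀) (by omega) k₀ rfl
      have hab : ∀ x : K, algebraMap K k x = algebraMap k₀ k (algebraMap K k₀ x) :=
        IsScalarTower.algebraMap_apply K k₀ k
      refine ⟨fun u hu => ?_, fun L _ _ _ θ h =>
        quad_stepC (N := N) hk₀ hd hsplit hreal hram hdesc ih1 ih2 L θ h⟩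
      have h2 : dn K (dn k₀ u) = dn K u := dn_dn u
      rw [hab, hab]
      refine NoRootAt.up hk₀ u (ih1 _ ?_)
      rw [h2]
      exact hu

section

variable {K N : Type} [Field K] [NumberField K] [Field N] [NumberField N] [Algebra K N]
  [IsGalois K N]

/-- The Selmer group over a field between `K` and `N`. -/
theorem selC_mid (hos : OrdSub) {r : ℕ} (hr : Module.finrank K N = 2 ^ r)
    {S : Finset (HeightOneSpectrum (𝓞 K))} {a b : K}
    (hd : 4 * a ^ 3 + 27 * b ^ 2 ≠ 0)
    (hnice : ∀ v : HeightOneSpectrum (𝓞 K), v ∉ S → v.valuation K 2 = 1 → NiceAt v a b)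
    (hsplit : ∀ v ∈ S, ∃ ι : N →+* v.adicCompletion K, ∀ x : K,
      ι (algebraMap K N x) = algebraMap K (v.adicCompletion K) x)
    (hreal : ∀ s : K →+* ℝ, 0 < s (4 * a ^ 3 + 27 * b ^ 2) ∨ ∃ s' : N →+* ℝ, ∀ x : K,
      s' (algebraMap K N x) = s x)
    (hram : ∀ V : HeightOneSpectrum (𝓞 N), dn K V ∉ S → V.valuation N 2 = 1 → Ram K V →
      NoRootAt (dn K V) a b)
    (hdesc : Desc2 K N a b)
    (hT : ∀ (L : Type) [Field L] [NumberField L] [Algebra K L] (θ : L), Cub K L a b θ →
      RelCT K K L S a b θ)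
    (k : Type) [Field k] [NumberField k] [Algebra K k] [Algebra k N] [IsScalarTower K k N]
    (L : Type) [Field L] [NumberField L] [Algebra k L] (θ : L)
    (h : Cub k L (algebraMap K k a) (algebraMap K k b) θ) :
    SelTriv k L (algebraMap K k a) (algebraMap K k b) θ := by
  obtain ⟨hNR, hRT⟩ := chainC hr hd hsplit hreal hram hdesc hT _ k rfl
  intro d hd0 hsq hfin hre
  refine hRT L θ h d ⟨hd0, hsq, ?_, ?_, fun u _ => hfin u, hre⟩
  · intro w hw hw2
    obtain ⟨V, hV⟩ := exists_above (L := N) (dn k w)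
    have hKV : dn K V = dn K (dn k w) := by
      rw [← hV]
      exact (dn_dn V).symm
    have hk2 : (dn k w).valuation k 2 = 1 := val2_down hw2
    have hV2 : V.valuation N 2 = 1 := val2_up (K := k) (by rw [hV]; exact hk2)
    by_cases hr' : Ram K V
    · have h1 := hram V (by rw [hKV]; exact hw) hV2 hr'
      rw [hKV] at h1
      exact even_unique h w (hNR _ h1) hd0 hsq
    · obtain ⟨-, h1⟩ := unram_mid (k := k) hr'
      rw [hV, hKV] at h1
      exact even_nice hos h w (NiceAt.up h1 (hnice _ hw (val2_down hk2))) hd0 (hfin _)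
  · intro v _ j hj
    exact LC_of_places hfin v j hj

/-- The relative theorem. -/
theorem relC_main (hos : OrdSub) {r : ℕ} (hr : Module.finrank K N = 2 ^ r)
    {S : Finset (HeightOneSpectrum (𝓞 K))} {a b : K}
    (hd : 4 * a ^ 3 + 27 * b ^ 2 ≠ 0) (hirr : ∀ t : K, t ^ 3 + a * t + b ≠ 0)
    (hnice : ∀ v : HeightOneSpectrum (𝓞 K), v ∉ S → v.valuation K 2 = 1 → NiceAt v a b)
    (hsplit : ∀ v ∈ S, ∃ ι : N →+* v.adicCompletion K, ∀ x : K,
      ι (algebraMap K N x) = algebraMap K (v.adicCompletion K) x)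
    (hreal : ∀ s : K →+* ℝ, 0 < s (4 * a ^ 3 + 27 * b ^ 2) ∨ ∃ s' : N →+* ℝ, ∀ x : K,
      s' (algebraMap K N x) = s x)
    (hram : ∀ V : HeightOneSpectrum (𝓞 N), dn K V ∉ S → V.valuation N 2 = 1 → Ram K V →
      NoRootAt (dn K V) a b)
    (hdesc : Desc2 K N a b)
    (hT : ∀ (L : Type) [Field L] [NumberField L] [Algebra K L] (θ : L), Cub K L a b θ →
      RelCT K K L S a b θ)
    (M : IntermediateField K N) [NumberField M] :
    Finite (⟨0, 0, 0, algebraMap K M a, algebraMap K M b⟩ : WeierstrassCurve M).toAffine.Point ∧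
      Pool.Agent.H10.Sha2Trivial M
        (⟨0, 0, 0, algebraMap K M a, algebraMap K M b⟩ : WeierstrassCurve M) := by
  have _ : FiniteDimensional K N := Module.Finite.of_restrictScalars_finite ℚ K N
  obtain ⟨L, _, _, _, θ, hL⟩ := H24PD.exists_cub (K := M)
    (noroot (K := K) (N := N) (k := M) hr hirr)
  exact H24PD.descent hL (selC_mid hos hr hd hnice hsplit hreal hram hdesc hT M L θ hL)

end

end H73CY
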