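import Pool.Agent.H73.CY.Lo
import Pool.Agent.H73.P2.Qs

/-!
The quadratic step with the conditions at all places above two (project MP_78d38b_CY, no row; modification of
`Pool/Agent/H73/P2/Qs.lean`).
-/

set_option autoImplicit false
set_option linter.unusedSectionVars false
open scoped Classical

open WithZero NumberField IsDedekindDomain H38RT
open H38T1 (SC sc scu rep eo la si Pri OddP tp unif)
open H76PP H73P2 H36CY

namespace H73CY

section Val

theorem val2_up {K N : Type} [Field K] [NumberField K] [Field N] [NumberField N] [Algebra K N]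
    {V : HeightOneSpectrum (𝓞 N)} (h : (dn K V).valuation K 2 = 1) : V.valuation N 2 = 1 := by
  have h1 := val_one (L := N) (w := V) h
  rw [map_ofNat] at h1
  exact h1

theorem val2_down {K N : Type} [Field K] [NumberField K] [Field N] [NumberField N] [Algebra K N]
    {V : HeightOneSpectrum (𝓞 N)} (h : V.valuation N 2 = 1) : (dn K V).valuation K 2 = 1 := by
  by_contra h0
  have h2 : (dn K V).valuation K 2 < 1 := by
    refine lt_of_le_of_ne ?_ h0
    have h3 := (dn K V).valuation_le_one (K := K) (2 : 𝓞 K)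
    have h4 : algebraMap (𝓞 K) K 2 = 2 := map_ofNat (algebraMap (𝓞 K) K) 2
    rw [← h4]
    exact h3
  have h3 := val_lt (L := N) (w := V) h2
  rw [map_ofNat] at h3
  exact absurd h h3.ne

end Val

section Down

variable {K k L k' L' N : Type} [Field K] [NumberField K] [Field k] [NumberField k] [Field L]
  [NumberField L] [Field k'] [NumberField k'] [Field L'] [NumberField L'] [Field N] [NumberField N]
  [Algebra K k] [Algebra K k'] [Algebra k k'] [Algebra k L] [Algebra L L'] [Algebra k' L']
  [Algebra k L'] [IsScalarTower K k k'] [IsScalarTower k L L'] [IsScalarTower k k' L']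
  [Algebra K N] [Algebra k N] [Algebra k' N] [IsScalarTower K k N] [IsScalarTower K k' N]
  [IsScalarTower k k' N] [IsGalois K N]

theorem relC_down {S : Finset (HeightOneSpectrum (𝓞 K))} {a b : K}
    (hsplit : ∀ v ∈ S, ∃ ι : N →+* v.adicCompletion K, ∀ x : K,
      ι (algebraMap K N x) = algebraMap K (v.adicCompletion K) x)
    (hreal : ∀ s : K →+* ℝ, 0 < s (4 * a ^ 3 + 27 * b ^ 2) ∨ ∃ s' : N →+* ℝ, ∀ x : K,
      s' (algebraMap K N x) = s x)
    (hram : ∀ V : HeightOneSpectrum (𝓞 N), dn K V ∉ S → V.valuation N 2 = 1 → Ram K V →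
      NoRootAt (dn K V) a b)
    (hdesc : Desc2 K N a b)
    (hNR : ∀ u : HeightOneSpectrum (𝓞 k), NoRootAt (dn K u) a b →
      NoRootAt u (algebraMap K k a) (algebraMap K k b))
    {θ : L} {θ' : L'} (Q : QS k L k' L' (algebraMap K k a) (algebraMap K k b) θ θ')
    (f2 : Module.finrank L L' = 2) {e : Fin 3 → k} (hne : ev θ e ≠ 0)
    (hsq : IsSquare (Algebra.norm k (ev θ e)))
    (hev : ∀ w' : HeightOneSpectrum (𝓞 L'), dn K (dn k' w') ∉ S → w'.valuation L' 2 = 1 →
      eo w' (sc (algebraMap L L' (ev θ e))) = 0)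
    (hloc : ∀ v ∈ S, LCv K v a b (fun i => algebraMap k k' (e i)))
    (htwo : ∀ u : HeightOneSpectrum (𝓞 k'), u.valuation k' 2 < 1 →
      LC (algebraMap k' (u.adicCompletion k')) (algebraMap K k' a) (algebraMap K k' b)
        (fun i => algebraMap k k' (e i)))
    (hre : ∀ s : k' →+* ℝ, LC s (algebraMap K k' a) (algebraMap K k' b)
      (fun i => algebraMap k k' (e i))) : RelC K k L S a b θ e := by
  have hab : ∀ x : K, algebraMap K k' x = algebraMap k k' (algebraMap K k x) :=
    IsScalarTower.algebraMap_apply K k k'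
  refine ⟨hne, hsq, ?_, ?_, ?_, ?_⟩
  · intro w hw hw2
    obtain ⟨V, hV⟩ := exists_above (L := N) (dn k w)
    have hKV : dn K V = dn K (dn k w) := by
      rw [← hV]
      exact (dn_dn V).symm
    have hk2 : (dn k w).valuation k 2 = 1 := val2_down hw2
    have hV2 : V.valuation N 2 = 1 := val2_up (K := k) (by rw [hV]; exact hk2)
    by_cases hr : Ram K V
    · have h1 := hram V (by rw [hKV]; exact hw) hV2 hr
      rw [hKV] at h1
      exact even_unique Q.cub w (hNR _ h1) hne hsq
    · obtain ⟨h1, -⟩ := unram_mid (k := k) hr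
      obtain ⟨D, ρ, hρ, hρk, hD⟩ := exists_gen (k' := k') Q.two h1
      rw [hV] at hD
      refine even_unram Q f2 w hw2 hρ hρk hD hne fun w' hw' => hev w' ?_ ?_
      · rw [← dn_sq (k := k) (L := L), hw']
        exact hw
      · exact val2_up (K := L) (by rw [hw']; exact hw2)
  · intro v hv j hj
    obtain ⟨j', hj'⟩ := ext_of (k' := k') (algebraMap K (v.adicCompletion K)) (hsplit v hv) j hj
    have h1 := hloc v hv j' (fun x => by rw [hab, hj', hj])
    unfold LC at h1 ⊢
    simp only [hab, hj'] at h1
    exact h1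
  · refine hdesc k k' Q.two e ?_ ?_ htwo
    · rw [← Te_norm Q.cub e, Ne, Algebra.norm_eq_zero_iff]
      exact hne
    · rw [← Te_norm Q.cub e]
      exact hsq
  · intro s
    rcases hreal (s.comp (algebraMap K k)) with h | h
    · refine LC_real s ?_ ?_
      · rw [RingHom.comp_apply] at h
        simpa only [map_add, map_mul, map_pow, map_ofNat] using h
      · have h1 := Te_norm Q.cub e
        rw [← h1]
        obtain ⟨c, hc⟩ := hsq
        have h2 : Algebra.norm k (ev θ e) ≠ 0 := by
          rw [Ne, Algebra.norm_eq_zero_iff]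
          exact hne
        rw [hc] at h2 ⊢
        rw [map_mul]
        have h3 : s c ≠ 0 := (map_ne_zero s).2 (left_ne_zero_of_mul h2)
        exact mul_self_pos.2 h3
    · obtain ⟨s', hs'⟩ := ext_of (k' := k') (s.comp (algebraMap K k)) h s (fun x => rfl)
      have h1 := hre s'
      unfold LC at h1 ⊢
      simp only [hab, hs'] at h1
      exact h1

end Down

section Step

variable {K k k' N : Type} [Field K] [NumberField K] [Field k] [NumberField k] [Field k']
  [NumberField k'] [Field N] [NumberField N] [Algebra K k] [Algebra K k'] [Algebra k k']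
  [IsScalarTower K k k'] [Algebra K N] [Algebra k N] [Algebra k' N] [IsScalarTower K k N]
  [IsScalarTower K k' N] [IsScalarTower k k' N] [IsGalois K N]

theorem lct_mul {a b : K} (hd : 4 * a ^ 3 + 27 * b ^ 2 ≠ 0) {d₁ d₂ : Fin 3 → k'}
    (u : HeightOneSpectrum (𝓞 k'))
    (h₁ : LC (algebraMap k' (u.adicCompletion k')) (algebraMap K k' a) (algebraMap K k' b) d₁)
    (h₂ : LC (algebraMap k' (u.adicCompletion k')) (algebraMap K k' a) (algebraMap K k' b) d₂) :
    LC (algebraMap k' (u.adicCompletion k')) (algebraMap K k' a) (algebraMap K k' b)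
      (m3 (algebraMap K k' a) (algebraMap K k' b) d₁ d₂) := by
  have hc : CharZero (u.adicCompletion k') :=
    charZero_of_injective_algebraMap (algebraMap k' (u.adicCompletion k')).injective
  refine LC_mul _ ?_ ?_ h₁ h₂
  · have h1 := (map_ne_zero ((algebraMap k' (u.adicCompletion k')).comp (algebraMap K k'))).2 hd
    simpa only [map_add, map_mul, map_pow, map_ofNat, RingHom.comp_apply] using h1
  · exact H24PD.inf_fin u _ _

theorem quad_stepC (two : Module.finrank k k' = 2) {S : Finset (HeightOneSpectrum (𝓞 K))}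
    {a b : K}
    (hd : 4 * a ^ 3 + 27 * b ^ 2 ≠ 0)
    (hsplit : ∀ v ∈ S, ∃ ι : N →+* v.adicCompletion K, ∀ x : K,
      ι (algebraMap K N x) = algebraMap K (v.adicCompletion K) x)
    (hreal : ∀ s : K →+* ℝ, 0 < s (4 * a ^ 3 + 27 * b ^ 2) ∨ ∃ s' : N →+* ℝ, ∀ x : K,
      s' (algebraMap K N x) = s x)
    (hram : ∀ V : HeightOneSpectrum (𝓞 N), dn K V ∉ S → V.valuation N 2 = 1 → Ram K V →
      NoRootAt (dn K V) a b)
    (hdesc : Desc2 K N a b)
    (hNR : ∀ u : HeightOneSpectrum (𝓞 k), NoRootAt (dn K u) a b →
      NoRootAt u (algebraMap K k a) (algebraMap K k b))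
    (hT : ∀ (L : Type) [Field L] [NumberField L] [Algebra k L] (θ : L),
      Cub k L (algebraMap K k a) (algebraMap K k b) θ → RelCT K k L S a b θ)
    (L' : Type) [Field L'] [NumberField L'] [Algebra k' L'] (θ' : L')
    (h' : Cub k' L' (algebraMap K k' a) (algebraMap K k' b) θ') : RelCT K k' L' S a b θ' := by
  intro d hR
  have hab : ∀ x : K, algebraMap K k' x = algebraMap k k' (algebraMap K k x) :=
    IsScalarTower.algebraMap_apply K k k'
  let _ : Algebra k L' := ((algebraMap k' L').comp (algebraMap k k')).toAlgebra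
  have _ : IsScalarTower k k' L' := IsScalarTower.of_algebraMap_eq fun _ => rfl
  have h'' : Cub k' L' (algebraMap k k' (algebraMap K k a)) (algebraMap k k' (algebraMap K k b)) θ' := by
    rw [← hab, ← hab]
    exact h'
  obtain ⟨L, _, _, _, _, _, θ, hc, hθ⟩ := exists_sub h''
  have Q : QS k L k' L' (algebraMap K k a) (algebraMap K k b) θ θ' := ⟨two, hc, h'', hθ⟩
  have f2 := Q.fin2
  obtain ⟨τ, σ, hσ, hτ⟩ := Q.sigma f2
  set x : L' := ev θ' d with hx
  have hx0 : x ≠ 0 := hR.ne
  -- the coordinates of an element of `L`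
  have hco : ∀ y : L, ev θ (fun i => hc.co i y) = y := fun y => (hc.eq_co y).symm
  have hn0 : Algebra.norm L x ≠ 0 := by
    rw [Ne, Algebra.norm_eq_zero_iff]
    exact hx0
  -- first descent
  have hsq1 : IsSquare (Algebra.norm L x) := by
    set e : Fin 3 → k := fun i => hc.co i (Algebra.norm L x) with he
    have he1 : ev θ e = Algebra.norm L x := hco _
    have he2 := hτ d e he1
    rw [← he1]
    refine hT L θ hc e (relC_down hsplit hreal hram hdesc hNR Q f2 ?_ ?_ ?_ ?_ ?_ ?_)
    · rw [he1]
      exact hn0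
    · rw [he1]
      exact Q.norm_sq f2 hR.sq
    · intro w' hw' hw2
      rw [he1, hσ, H38T1.sc_mul hx0 ((map_ne_zero σ).2 hx0), H38T1.eo_add, hR.even w' hw' hw2,
        zero_add]
      obtain ⟨W', h1, h2⟩ := eo_conj σ w'
      rw [h2 x hx0]
      apply hR.even
      · rw [← dn_sq (K := K) (k := k) (k' := k') (L := L) W', h1,
          dn_sq (K := K) (k := k) (k' := k') (L := L) w']
        exact hw'
      · refine val2_up (K := L) ?_
        rw [h1]
        exact val2_down hw2
    · intro v hv
      rw [he2, ← hab, ← hab]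
      refine lcv_mul hd v (hR.loc v hv) ?_
      intro j hj
      have h1 := hR.loc v hv (j.comp (τ : k' →+* k')) (fun y => by
        change j (τ (algebraMap K k' y)) = _
        rw [hab, τ.commutes, ← hab, hj])
      unfold LC at h1 ⊢
      simp only [RingHom.comp_apply, RingHom.coe_coe, hab, τ.commutes] at h1 ⊢
      exact h1
    · intro u hu
      rw [he2, ← hab, ← hab]
      refine lct_mul hd u (hR.two u hu) ?_
      rw [hab, hab]
      refine two_conj τ (fun u hu => ?_) u hu
      rw [← hab, ← hab]
      exact hR.two u hu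
    · intro s
      rw [he2, ← hab, ← hab]
      refine lcr_mul hd s (hR.real s) ?_
      have h1 := hR.real (s.comp (τ : k' →+* k'))
      unfold LC at h1 ⊢
      simp only [RingHom.comp_apply, RingHom.coe_coe, hab, τ.commutes] at h1 ⊢
      exact h1
  -- second descent
  obtain ⟨t, z, ht, hz, hxt, hNt⟩ := Q.core f2 hx0 hR.sq hsq1
  have hsq2 : IsSquare t := by
    set e : Fin 3 → k := fun i => hc.co i t with he
    have he1 : ev θ e = t := hco _
    -- the coordinates of the inverse of `z`
    set u : Fin 3 → k' := fun i => h''.co i z⁻¹ with hu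
    have hu1 : ev θ' u = z⁻¹ := (h''.eq_co z⁻¹).symm
    have he2 : (fun i => algebraMap k k' (e i)) = m3 (algebraMap k k' (algebraMap K k a))
        (algebraMap k k' (algebraMap K k b)) d (m3 (algebraMap k k' (algebraMap K k a))
        (algebraMap k k' (algebraMap K k b)) u u) := by
      have h1 : ev θ' (fun i => algebraMap k k' (e i)) = ev θ' (m3 (algebraMap k k' (algebraMap K k a))
        (algebraMap k k' (algebraMap K k b)) d (m3 (algebraMap k k' (algebraMap K k a))
        (algebraMap k k' (algebraMap K k b)) u u)) := by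
        rw [← Q.coord, he1, ← Te_ev_mul h'', ← Te_ev_mul h'', hu1, ← hx, hxt]
        field_simp
      funext i
      have h2 := h''.co_mk (fun i => algebraMap k k' (e i)) i
      have h3 := h''.co_mk (m3 (algebraMap k k' (algebraMap K k a))
        (algebraMap k k' (algebraMap K k b)) d (m3 (algebraMap k k' (algebraMap K k a))
        (algebraMap k k' (algebraMap K k b)) u u)) i
      unfold ev at h1
      rw [← h2, ← h3, h1]
    rw [← he1]
    refine hT L θ hc e (relC_down hsplit hreal hram hdesc hNR Q f2 ?_ ?_ ?_ ?_ ?_ ?_)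
    · rw [he1]
      exact ht
    · rw [he1]
      exact hNt
    · intro w' hw' hw2
      rw [he1]
      have h1 := hR.even w' hw' hw2
      have htL : algebraMap L L' t ≠ 0 := (map_ne_zero _).2 ht
      rw [← hx, hxt, H38T1.sc_mul htL (pow_ne_zero 2 hz)] at h1
      have h2 : sc (z ^ 2) = (0 : SC L') := (H38T1.sc_eq_zero (pow_ne_zero 2 hz)).2 ⟨z, pow_two z⟩
      rwa [h2, add_zero] at h1
    · intro v hv j hj
      have h1 := LC_sq j u (hR.loc v hv j hj)
      rw [hab, hab] at h1 ⊢
      rw [he2]
      exact h1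
    · intro w hw
      have h1 := LC_sq (algebraMap k' (w.adicCompletion k')) u (hR.two w hw)
      rw [hab, hab] at h1 ⊢
      rw [he2]
      exact h1
    · intro s
      have h1 := LC_sq s u (hR.real s)
      rw [hab, hab] at h1 ⊢
      rw [he2]
      exact h1
  rw [hxt]
  obtain ⟨c, rfl⟩ := hsq2
  exact ⟨algebraMap L L' c * z, by rw [map_mul]; ring⟩

end Step

end H73CY
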